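import Pool.Agent.AltPath.Geom

/-! Cutting a finite set by a line through a point. -/

namespace Pool.Agent.HPD66

open Pool.Agent.AltPath

/-- Thresholds for an injective function on a finite set. -/
theorem threshold66 {α : Type} [DecidableEq α] (V : Finset α) (f : α → ℝ)
    (hf : ∀ v ∈ V, ∀ w ∈ V, f v = f w → v = w) (k : ℕ) (hk : k ≤ V.card) :
    ∃ V₁ : Finset α, V₁ ⊆ V ∧ V₁.card = k ∧ ∃ t : ℝ, (∀ v ∈ V₁, f v < t) ∧
      ∀ v ∈ V, v ∉ V₁ → t < f v := by
  induction k with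
  | zero =>
    by_cases hV : V.Nonempty
    · obtain ⟨m, _, hmin⟩ := Finset.exists_min_image V f hV
      refine ⟨∅, Finset.empty_subset _, Finset.card_empty, f m - 1, ?_, ?_⟩
      · intro v hv
        exact absurd hv (Finset.notMem_empty v)
      · intro v hv _
        linarith [hmin v hv]
    · rw [Finset.not_nonempty_iff_eq_empty] at hV
      subst hV
      exact ⟨∅, Finset.empty_subset _, Finset.card_empty, 0,
        fun v hv => absurd hv (Finset.notMem_empty v),
        fun v hv => absurd hv (Finset.notMem_empty v)⟩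
  | succ k ih =>
    obtain ⟨V₁, hV₁, hc, t, h1, h2⟩ := ih (by omega)
    have hne : (V \ V₁).Nonempty := by
      rw [← Finset.card_pos, Finset.card_sdiff_of_subset hV₁]
      omega
    obtain ⟨m, hm, hmin⟩ := Finset.exists_min_image (V \ V₁) f hne
    obtain ⟨hmV, hmV₁⟩ := Finset.mem_sdiff.1 hm
    by_cases hne2 : ((V \ V₁).erase m).Nonempty
    · obtain ⟨m', hm', hmin'⟩ := Finset.exists_min_image ((V \ V₁).erase m) f hne2
      obtain ⟨hmm, hm'V⟩ := Finset.mem_erase.1 hm'
      have h3 : f m < f m' := by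
        refine lt_of_le_of_ne (hmin m' hm'V) ?_
        intro h
        exact hmm (hf m hmV m' (Finset.mem_sdiff.1 hm'V).1 h).symm
      refine ⟨insert m V₁, ?_, ?_, (f m + f m') / 2, ?_, ?_⟩
      · intro v hv
        rcases Finset.mem_insert.1 hv with rfl | hv
        · exact hmV
        · exact hV₁ hv
      · rw [Finset.card_insert_of_notMem hmV₁, hc]
      · intro v hv
        rcases Finset.mem_insert.1 hv with rfl | hv
        · linarith
        · have := h1 v hv
          have := h2 m hmV hmV₁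
          linarith
      · intro v hv hv'
        rw [Finset.mem_insert, not_or] at hv'
        have := hmin' v (Finset.mem_erase.2 ⟨hv'.1, Finset.mem_sdiff.2 ⟨hv, hv'.2⟩⟩)
        linarith
    · refine ⟨insert m V₁, ?_, ?_, f m + 1, ?_, ?_⟩
      · intro v hv
        rcases Finset.mem_insert.1 hv with rfl | hv
        · exact hmV
        · exact hV₁ hv
      · rw [Finset.card_insert_of_notMem hmV₁, hc]
      · intro v hv
        rcases Finset.mem_insert.1 hv with rfl | hv
        · linarith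
        · have := h1 v hv
          have := h2 m hmV hmV₁
          linarith
      · intro v hv hv'
        rw [Finset.mem_insert, not_or] at hv'
        exact absurd ⟨v, Finset.mem_erase.2 ⟨hv'.1, Finset.mem_sdiff.2 ⟨hv, hv'.2⟩⟩⟩ hne2

/-- A line through `z` cuts off any prescribed number of points of a set which lies in an open
half-plane bounded by a line through `z`; the cut off sets are nested. -/
theorem rays66 (z b : ℝ × ℝ) (V : Finset (ℝ × ℝ)) (hV : ∀ v ∈ V, 0 < dt b (v - z))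
    (hgp : GP (insert z V)) (k : ℕ) (hk : k ≤ V.card) :
    ∃ V₁ ⊆ V, V₁.card = k ∧ ∃ a : ℝ × ℝ, (∀ v ∈ V₁, dt a (v - z) < 0) ∧
      (∀ v ∈ V, v ∉ V₁ → 0 < dt a (v - z)) ∧
      (∀ v ∈ V₁, ∀ w ∈ V, w ∉ V₁ → cr b (v - z) * dt b (w - z) < cr b (w - z) * dt b (v - z)) ∧
      cr a b = -dt b b := by
  have hne : ∀ v ∈ V, v ≠ z := by
    rintro v hv rfl
    have := hV v hv
    rw [dt_sub] at this
    linarith
  have hinj : ∀ v ∈ V, ∀ w ∈ V, cr b (v - z) / dt b (v - z) = cr b (w - z) / dt b (w - z) →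
      v = w := by
    intro v hv w hw h
    by_contra hvw
    have h1 := hV v hv
    have h2 := hV w hw
    rw [div_eq_div_iff h1.ne' h2.ne'] at h
    have h3 := hgp z (Finset.mem_insert_self z V) v (Finset.mem_insert_of_mem hv) w
      (Finset.mem_insert_of_mem hw) (hne v hv).symm (hne w hw).symm hvw
    apply h3
    have h4 : dt b b * cr (v - z) (w - z)
        = dt b (v - z) * cr b (w - z) - cr b (v - z) * dt b (w - z) := by
      simp only [dt, cr]
      ring
    have hb0 : b ≠ 0 := by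
      rintro rfl
      simp [dt] at h1
    have h5 := dt_self_pos hb0
    have h6 : dt b b * cr (v - z) (w - z) = 0 := by
      rw [h4]
      linarith
    exact (mul_eq_zero.1 h6).resolve_left h5.ne'
  obtain ⟨V₁, hV₁, hc, t, h1, h2⟩ :=
    threshold66 V (fun v => cr b (v - z) / dt b (v - z)) hinj k hk
  have key : ∀ w : ℝ × ℝ, dt (-b.2 - t * b.1, b.1 - t * b.2) w = cr b w - t * dt b w := by
    intro w
    simp only [dt, cr]
    ring
  refine ⟨V₁, hV₁, hc, (-b.2 - t * b.1, b.1 - t * b.2), ?_, ?_, ?_, ?_⟩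
  · intro v hv
    have h3 := h1 v hv
    rw [div_lt_iff₀ (hV v (hV₁ hv))] at h3
    rw [key]
    linarith
  · intro v hv hv'
    have h3 := h2 v hv hv'
    rw [lt_div_iff₀ (hV v hv)] at h3
    rw [key]
    linarith
  · intro v hv w hw hw'
    have h3 := lt_trans (h1 v hv) (h2 w hw hw')
    rwa [div_lt_div_iff₀ (hV v (hV₁ hv)) (hV w hw)] at h3
  · simp only [cr, dt]
    ring

/-- The cut with the given numbers of points: the first `b(V)` points. -/
theorem card_cut66 (V V₁ R : Finset (ℝ × ℝ)) (hV₁ : V₁ ⊆ V) (hc : V₁.card = (V \ R).card) :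
    (V₁ ∩ R).card = ((V \ V₁) \ R).card := by
  have h1 : (V₁ ∩ R).card + (V₁ \ R).card = V₁.card := Finset.card_inter_add_card_sdiff V₁ R
  have h2 : ((V \ R) \ V₁).card + ((V \ R) ∩ V₁).card = (V \ R).card := by
    rw [add_comm]
    exact Finset.card_inter_add_card_sdiff (V \ R) V₁
  have h3 : (V \ R) \ V₁ = (V \ V₁) \ R := by
    ext x
    simp only [Finset.mem_sdiff]
    tauto
  have h4 : (V \ R) ∩ V₁ = V₁ \ R := by
    ext x
    simp only [Finset.mem_sdiff, Finset.mem_inter]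
    constructor
    · rintro ⟨⟨_, h⟩, h'⟩
      exact ⟨h', h⟩
    · rintro ⟨h, h'⟩
      exact ⟨⟨hV₁ h, h'⟩, h⟩
  rw [h3, h4] at h2
  omega

theorem card_cut66' (V V₁ R : Finset (ℝ × ℝ)) (hV₁ : V₁ ⊆ V) (hc : V₁.card = (V ∩ R).card) :
    (V₁ \ R).card = ((V \ V₁) ∩ R).card := by
  have h1 : (V₁ ∩ R).card + (V₁ \ R).card = V₁.card := Finset.card_inter_add_card_sdiff V₁ R
  have h2 : ((V ∩ R) \ V₁).card + ((V ∩ R) ∩ V₁).card = (V ∩ R).card := by
    rw [add_comm]
    exact Finset.card_inter_add_card_sdiff (V ∩ R) V₁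
  have h3 : (V ∩ R) \ V₁ = (V \ V₁) ∩ R := by
    ext x
    simp only [Finset.mem_sdiff, Finset.mem_inter]
    tauto
  have h4 : (V ∩ R) ∩ V₁ = V₁ ∩ R := by
    ext x
    simp only [Finset.mem_inter]
    constructor
    · rintro ⟨⟨_, h⟩, h'⟩
      exact ⟨h', h⟩
    · rintro ⟨h, h'⟩
      exact ⟨⟨hV₁ h, h'⟩, h⟩
  rw [h3, h4] at h2
  omega

/-- **The cut.** A line through `z` cuts `V` into `V₁`, `V₂` with as many reds in `V₁` as blues in
`V₂`, or with as many blues in `V₁` as reds in `V₂`, and twice this number is at least the smaller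
colour class of `V`. -/
theorem cut66 (z b : ℝ × ℝ) (V R : Finset (ℝ × ℝ)) (hV : ∀ v ∈ V, 0 < dt b (v - z))
    (hgp : GP (insert z V)) :
    ∃ V₁ ⊆ V, ∃ a : ℝ × ℝ, (∀ v ∈ V₁, dt a (v - z) < 0) ∧
      (∀ v ∈ V, v ∉ V₁ → 0 < dt a (v - z)) ∧
      (((V₁ ∩ R).card = ((V \ V₁) \ R).card ∧
        min (V ∩ R).card (V \ R).card ≤ 2 * (V₁ ∩ R).card) ∨
       ((V₁ \ R).card = ((V \ V₁) ∩ R).card ∧
        min (V ∩ R).card (V \ R).card ≤ 2 * (V₁ \ R).card)) := by
  obtain ⟨V₁, hV₁, hc₁, a₁, ha₁, ha₁', hr₁, -⟩ := rays66 z b V hV hgp (V \ R).card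
    (Finset.card_le_card Finset.sdiff_subset)
  obtain ⟨V₂, hV₂, hc₂, a₂, ha₂, ha₂', hr₂, -⟩ := rays66 z b V hV hgp (V ∩ R).card
    (Finset.card_le_card Finset.inter_subset_left)
  have e₁ := card_cut66 V V₁ R hV₁ hc₁
  have e₂ := card_cut66' V V₂ R hV₂ hc₂
  have hnest : V₁ ⊆ V₂ ∨ V₂ ⊆ V₁ := by
    by_contra hcon
    rw [not_or, Finset.not_subset, Finset.not_subset] at hcon
    obtain ⟨⟨x, hx, hx'⟩, ⟨y, hy, hy'⟩⟩ := hcon
    have h1 := hr₁ x hx y (hV₂ hy) hy'
    have h2 := hr₂ y hy x (hV₁ hx) hx'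
    linarith
  have f₁ : (V₁ ∩ R).card + (V₁ \ R).card = V₁.card := Finset.card_inter_add_card_sdiff V₁ R
  have f₂ : (V₂ ∩ R).card + (V₂ \ R).card = V₂.card := Finset.card_inter_add_card_sdiff V₂ R
  have hsum : min (V ∩ R).card (V \ R).card ≤ (V₁ ∩ R).card + (V₂ \ R).card := by
    rcases hnest with h | h
    · have h3 : (V₁ \ R).card ≤ (V₂ \ R).card :=
        Finset.card_le_card (Finset.sdiff_subset_sdiff h (Finset.Subset.refl R))
      have h4 : min (V ∩ R).card (V \ R).card ≤ (V \ R).card := min_le_right _ _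
      omega
    · have h3 : (V₂ ∩ R).card ≤ (V₁ ∩ R).card :=
        Finset.card_le_card (Finset.inter_subset_inter_right h)
      have h4 : min (V ∩ R).card (V \ R).card ≤ (V ∩ R).card := min_le_left _ _
      omega
  rcases le_total (V₂ \ R).card (V₁ ∩ R).card with h | h
  · exact ⟨V₁, hV₁, a₁, ha₁, ha₁', Or.inl ⟨e₁, by omega⟩⟩
  · exact ⟨V₂, hV₂, a₂, ha₂, ha₂', Or.inr ⟨e₂, by omega⟩⟩

end Pool.Agent.HPD66
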