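import Pool.Agent.AltHP.Bridge
import Pool.Agent.Helper66.HPD.Cut

/-! The second arm: an alternating good list in a half-plane with vertex z on its boundary. -/

namespace Pool.Agent.HPD66

open Pool.Agent.AltPath Pool.Agent.AltHP

/-- Zigzag from `z` between two sets separated by a line through `z`, both on one side of another
line through `z`. -/
theorem fan66 {S : Finset (ℝ × ℝ)} (hgp : GP S) (z w a : ℝ × ℝ) (X Y : Finset (ℝ × ℝ))
    (ha : cr a w ≠ 0) (hXS : X ⊆ S) (hYS : Y ⊆ S) (hwX : ∀ q ∈ X, 0 < dt w (q - z))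
    (hwY : ∀ q ∈ Y, 0 < dt w (q - z)) (haX : ∀ q ∈ X, 0 < dt a (q - z))
    (haY : ∀ q ∈ Y, dt a (q - z) < 0) (hc : X.card = Y.card) :
    ∃ l : List (ℝ × ℝ), l.Nodup ∧ (∀ q, q ∈ l ↔ q ∈ X ∪ Y) ∧ l.length = X.card + Y.card ∧
      Good z l ∧ ∀ (T : Finset (ℝ × ℝ)) (b : Bool), (∀ q ∈ X, (q ∈ T ↔ b = true)) →
        (∀ q ∈ Y, (q ∈ T ↔ b = false)) → Alt T b l := by
  refine zig hgp (X.card + Y.card) a (-w) z X Y rfl ?_ hXS hYS ?_ (by omega) (by omega) ?_ ?_
  · intro h
    apply ha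
    simp only [cr, Prod.fst_neg, Prod.snd_neg] at h ⊢
    linarith
  · intro hz
    have := hwY z hz
    rw [dt_sub] at this
    linarith
  · intro p hp q hq
    have h1 := haX p hp
    have h2 := haY q hq
    rw [dt_sub] at h1 h2
    linarith
  · intro c' d' s hbr
    obtain ⟨hc', hd', h1, _, _⟩ := hbr
    have a1 := haX c' hc'
    have a2 := haY d' hd'
    have w1 := hwX c' hc'
    have w2 := hwY d' hd'
    rw [dt_sub] at a1 a2 w1 w2
    have e : ∀ q : ℝ × ℝ, dt (-w - s • a) q = -dt w q - s * dt a q := by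
      intro q
      rw [dt_sub_smul, dt_neg_left]
    rw [e, e] at h1 ⊢
    rcases le_total 0 s with hs | hs
    · have h2 : 0 ≤ s * (dt a c' - dt a z) := mul_nonneg hs a1.le
      linarith
    · have h2 : 0 ≤ s * (dt a d' - dt a z) := mul_nonneg_of_nonpos_of_nonpos hs a2.le
      linarith

/-- **The second arm.** -/
theorem cutList66 (z w : ℝ × ℝ) (V R₁ B₁ : Finset (ℝ × ℝ)) (hV : ∀ q ∈ V, 0 < dt w (q - z))
    (hR : R₁ ⊆ V) (hB : B₁ ⊆ V) (hd : Disjoint R₁ B₁) (hgp : GP (insert z V)) (j : ℕ)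
    (hjR : j ≤ R₁.card) (hjB : j ≤ B₁.card) :
    ∃ l : List (ℝ × ℝ), l.Nodup ∧ (∀ q ∈ l, q ∈ V) ∧ z ∉ l ∧ Good z l ∧ j ≤ l.length ∧
      ∀ (T : Finset (ℝ × ℝ)) (b : Bool), (∀ q ∈ R₁, (q ∈ T ↔ b = false)) →
        (∀ q ∈ B₁, (q ∈ T ↔ b = true)) → Alt T b l := by
  classical
  have hzV : z ∉ V := by
    intro hz
    have := hV z hz
    rw [dt_sub] at this
    linarith
  rcases Nat.eq_zero_or_pos j with rfl | hj
  · exact ⟨[], List.nodup_nil, fun q hq => absurd hq List.not_mem_nil, List.not_mem_nil, trivial,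
      Nat.zero_le _, fun _ _ _ _ => trivial⟩
  have hw0 : w ≠ 0 := by
    obtain ⟨q, hq⟩ := Finset.card_pos.1 (lt_of_lt_of_le hj hjR)
    rintro rfl
    have := hV q (hR hq)
    simp [dt] at this
  have hWV : R₁ ∪ B₁ ⊆ V := Finset.union_subset hR hB
  have hWc : (R₁ ∪ B₁).card = R₁.card + B₁.card := Finset.card_union_of_disjoint hd
  obtain ⟨W₁, hW₁, hc, a, ha1, ha2, -, hcr⟩ := rays66 z w (R₁ ∪ B₁) (fun v hv => hV v (hWV hv))
    (hgp.mono (Finset.insert_subset_insert z hWV)) j (by omega)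
  have hcr' : cr a w ≠ 0 := by
    rw [hcr]
    exact neg_ne_zero.2 (dt_self_pos hw0).ne'
  have hS₁ : V ⊆ insert z V := Finset.subset_insert z V
  have f1 : (W₁ ∩ R₁).card + (W₁ ∩ B₁).card = j := by
    rw [← hc, ← Finset.card_union_of_disjoint]
    · congr 1
      ext x
      simp only [Finset.mem_union, Finset.mem_inter]
      constructor
      · rintro (h | h)
        · exact h.1
        · exact h.1
      · intro h
        rcases Finset.mem_union.1 (hW₁ h) with h' | h'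
        · exact Or.inl ⟨h, h'⟩
        · exact Or.inr ⟨h, h'⟩
    · exact Disjoint.mono Finset.inter_subset_right Finset.inter_subset_right hd
  have f2 : (R₁ \ W₁).card + (R₁ ∩ W₁).card = R₁.card := by
    rw [add_comm]
    exact Finset.card_inter_add_card_sdiff R₁ W₁
  have f3 : (B₁ \ W₁).card + (B₁ ∩ W₁).card = B₁.card := by
    rw [add_comm]
    exact Finset.card_inter_add_card_sdiff B₁ W₁
  rw [Finset.inter_comm] at f2 f3
  by_cases hcase : j ≤ 2 * (W₁ ∩ R₁).card
  · obtain ⟨X, hX, hXc⟩ := Finset.exists_subset_card_eq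
      (show (W₁ ∩ R₁).card ≤ (B₁ \ W₁).card by omega)
    have hXB : X ⊆ B₁ := fun q hq => (Finset.mem_sdiff.1 (hX hq)).1
    have hYR : W₁ ∩ R₁ ⊆ R₁ := Finset.inter_subset_right
    obtain ⟨l, l1, l2, l3, l4, l5⟩ := fan66 hgp z w a X (W₁ ∩ R₁) hcr'
      (fun q hq => hS₁ (hB (hXB hq))) (fun q hq => hS₁ (hR (hYR hq)))
      (fun q hq => hV q (hB (hXB hq))) (fun q hq => hV q (hR (hYR hq)))
      (fun q hq => ha2 q (Finset.mem_union_right _ (hXB hq)) (Finset.mem_sdiff.1 (hX hq)).2)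
      (fun q hq => ha1 q (Finset.mem_inter.1 hq).1) hXc
    have hlV : ∀ q ∈ l, q ∈ V := by
      intro q hq
      rcases Finset.mem_union.1 ((l2 q).1 hq) with h | h
      · exact hB (hXB h)
      · exact hR (hYR h)
    exact ⟨l, l1, hlV, fun h => hzV (hlV z h), l4, by omega, fun T b h2 h3 =>
      l5 T b (fun q hq => h3 q (hXB hq)) (fun q hq => h2 q (hYR hq))⟩
  · obtain ⟨Y, hY, hYc⟩ := Finset.exists_subset_card_eq
      (show (W₁ ∩ B₁).card ≤ (R₁ \ W₁).card by omega)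
    have hYR : Y ⊆ R₁ := fun q hq => (Finset.mem_sdiff.1 (hY hq)).1
    have hXB : W₁ ∩ B₁ ⊆ B₁ := Finset.inter_subset_right
    have e : ∀ q : ℝ × ℝ, dt (-a) q = -dt a q := dt_neg_left a
    obtain ⟨l, l1, l2, l3, l4, l5⟩ := fan66 hgp z w (-a) (W₁ ∩ B₁) Y
      (by
        intro h
        apply hcr'
        simp only [cr, Prod.fst_neg, Prod.snd_neg] at h ⊢
        linarith)
      (fun q hq => hS₁ (hB (hXB hq))) (fun q hq => hS₁ (hR (hYR hq)))
      (fun q hq => hV q (hB (hXB hq))) (fun q hq => hV q (hR (hYR hq)))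
      (fun q hq => by
        rw [e]
        have := ha1 q (Finset.mem_inter.1 hq).1
        linarith)
      (fun q hq => by
        rw [e]
        have := ha2 q (Finset.mem_union_left _ (hYR hq)) (Finset.mem_sdiff.1 (hY hq)).2
        linarith) hYc.symm
    have hlV : ∀ q ∈ l, q ∈ V := by
      intro q hq
      rcases Finset.mem_union.1 ((l2 q).1 hq) with h | h
      · exact hB (hXB h)
      · exact hR (hYR h)
    exact ⟨l, l1, hlV, fun h => hzV (hlV z h), l4, by omega, fun T b h2 h3 =>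
      l5 T b (fun q hq => h3 q (hXB hq)) (fun q hq => h2 q (hYR hq))⟩

end Pool.Agent.HPD66
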