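import Pool.Agent.AltHP.LemmaS
import Pool.Agent.Helper66.HPD.CutList

/-! The statement of the second arm as used in LemmaS. -/

namespace Pool.Agent.HPD66

open Pool.Agent.AltPath Pool.Agent.AltHP

theorem cutStmt : CutStmt := by
  intro z w V R1 B1 hgp hV hR hB hd j hjR hjB
  obtain ⟨l, h1, h2, h3, h4, h5, h6⟩ := cutList66 z w V R1 B1 hV hR hB hd hgp j hjR hjB
  exact ⟨l, List.nodup_cons.2 ⟨h3, h1⟩, h2, h4, h5, h6⟩

end Pool.Agent.HPD66
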